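import Mathlib
set_option autoImplicit false
namespace Pool.Agent.TH589.C8_PAR

/-- `t` is `1` or `y`, and it generates the fractional ideal `(1, y)` of the valuation ring `V`. -/
def Gen {L : Type} [Field L] (V : ValuationSubring L) (t y : L) : Prop :=
  t ≠ 0 ∧ (t = 1 ∨ t = y) ∧ t⁻¹ ∈ V ∧ y * t⁻¹ ∈ V

section val

variable {L Γ : Type} [Field L] [LinearOrderedCommGroupWithZero Γ] (v : Valuation L Γ)

theorem add_lt {a b : L} {c : Γ} (ha : v a < c) (hb : v b < c) : v (a + b) < c :=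
  v.map_add_lt ha hb

theorem add_le {a b : L} {c : Γ} (ha : v a ≤ c) (hb : v b ≤ c) : v (a + b) ≤ c :=
  v.map_add_le ha hb

theorem sub_le {a b : L} {c : Γ} (ha : v a ≤ c) (hb : v b ≤ c) : v (a - b) ≤ c :=
  v.map_sub_le ha hb

theorem one_le_mul' {a b : Γ} (ha : 1 ≤ a) (hb : 1 ≤ b) : 1 ≤ a * b :=
  one_le_mul ha hb

/-- (d) -/
theorem sq_eq_cube {x y : L} (h : y ^ 2 = x ^ 3 + 1) : (max 1 (v y)) ^ 2 = (max 1 (v x)) ^ 3 := by
  rcases le_or_gt (v x) 1 with hx | hx
  · have h3 : v (x ^ 3 + 1) ≤ 1 := by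
      apply add_le
      · rw [map_pow]; exact pow_le_one₀ zero_le hx
      · simp
    rw [← h, map_pow] at h3
    have hy : v y ≤ 1 := by
      by_contra hc
      push Not at hc
      exact absurd h3 (not_le.2 (one_lt_pow₀ hc two_ne_zero))
    rw [max_eq_left hx, max_eq_left hy]
    simp
  · have h3 : v (x ^ 3 + 1) = v x ^ 3 := by
      rw [← map_pow]
      apply Valuation.map_add_eq_of_lt_left
      rw [map_one, map_pow]
      exact one_lt_pow₀ hx (by norm_num)
    rw [← h, map_pow] at h3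
    have hy : 1 ≤ v y := by
      by_contra hc
      push Not at hc
      have : v y ^ 2 < 1 := pow_lt_one₀ zero_le hc two_ne_zero
      rw [h3] at this
      exact absurd this (not_lt.2 (one_lt_pow₀ hx (by norm_num)).le)
    rw [max_eq_right hx.le, max_eq_right hy, h3]

/-- (c) -/
theorem gauss (p m : L) : max 1 (max (v (p + m)) (v (p * m))) = max 1 (v p) * max 1 (v m) := by
  have key : ∀ p m : L, v m ≤ 1 → 1 < v p →
      max 1 (max (v (p + m)) (v (p * m))) = max 1 (v p) * max 1 (v m) := by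
    intro p m hm hp
    have h1 : v (p + m) = v p := Valuation.map_add_eq_of_lt_left v (lt_of_le_of_lt hm hp)
    have h2 : v (p * m) ≤ v p := by
      rw [map_mul]; exact mul_le_of_le_one_right' hm
    rw [h1, max_eq_left h2, max_eq_right hp.le, max_eq_left hm, mul_one]
  rcases le_or_gt (v p) 1 with hp | hp
  · rcases le_or_gt (v m) 1 with hm | hm
    · rw [max_eq_left hp, max_eq_left hm, one_mul, max_eq_left]
      refine max_le (add_le v hp hm) ?_
      rw [map_mul]; exact mul_le_one' hp hm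
    · rw [add_comm, mul_comm p m, mul_comm (max 1 (v p))]
      exact key m p hp hm
  · rcases le_or_gt (v m) 1 with hm | hm
    · exact key p m hm hp
    · rw [max_eq_right hp.le, max_eq_right hm.le, map_mul]
      have h1 : v (p + m) ≤ v p * v m :=
        add_le v (le_mul_of_one_le_right' hm.le) (le_mul_of_one_le_left' hp.le)
      rw [max_eq_right h1, max_eq_right (one_le_mul hp.le hm.le)]

/-- (b) in the integral case -/
theorem ideal_int (h2 : v 2 = 1) (h3 : v 3 = 1) {a b : L} (ha : v a ≤ 1) (hb : v b ≤ 1) :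
    max (v ((a - b) ^ 2)) (max (v (2 * (a * b * (a + b) + 2)))
      (v (a ^ 2 * b ^ 2 - 4 * (a + b)))) = 1 := by
  have h4 : v 4 = 1 := by
    rw [show (4 : L) = 2 * 2 by norm_num, map_mul, h2, one_mul]
  have h9 : v 9 = 1 := by
    rw [show (9 : L) = 3 * 3 by norm_num, map_mul, h3, one_mul]
  have hab : v (a + b) ≤ 1 := add_le v ha hb
  apply le_antisymm
  · refine max_le ?_ (max_le ?_ ?_)
    · rw [map_pow]; exact pow_le_one₀ zero_le (sub_le v ha hb)
    · rw [map_mul, h2, one_mul]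
      refine add_le v ?_ h2.le
      rw [map_mul, map_mul]
      exact mul_le_one' (mul_le_one' ha hb) hab
    · refine sub_le v ?_ ?_
      · rw [map_mul, map_pow, map_pow]
        exact mul_le_one' (pow_le_one₀ zero_le ha) (pow_le_one₀ zero_le hb)
      · rw [map_mul, h4, one_mul]; exact hab
  · by_contra hc
    push Not at hc
    rw [max_lt_iff, max_lt_iff] at hc
    obtain ⟨c1, c2, c3⟩ := hc
    have d1 : v (a - b) < 1 := by
      by_contra hd
      push Not at hd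
      rw [map_pow] at c1
      exact absurd (one_le_pow₀ hd) (not_le.2 c1)
    rw [map_mul, h2, one_mul] at c2
    have small : ∀ x y : L, v x < 1 → v y ≤ 1 → v (x * y) < 1 := by
      intro x y hx hy
      rw [map_mul]
      exact mul_lt_one_of_lt_of_le hx hy
    have i2 : v (2 : L) ≤ 1 := h2.le
    -- a ^ 3 + 1
    have e1 : v (2 * (a ^ 3 + 1)) < 1 := by
      have : 2 * (a ^ 3 + 1) = (a * b * (a + b) + 2) + (a - b) * (a * (2 * a + b)) := by ring
      rw [this]
      refine add_lt v c2 (small _ _ d1 ?_)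
      rw [map_mul]
      refine mul_le_one' ha (add_le v ?_ hb)
      rw [map_mul]; exact mul_le_one' i2 ha
    rw [map_mul, h2, one_mul] at e1
    have e2 : v (a ^ 4 - 8 * a) < 1 := by
      have : a ^ 4 - 8 * a = (a ^ 2 * b ^ 2 - 4 * (a + b)) + (a - b) * (a ^ 2 * (a + b) - 4) := by
        ring
      rw [this]
      refine add_lt v c3 (small _ _ d1 (sub_le v ?_ h4.le))
      rw [map_mul, map_pow]
      exact mul_le_one' (pow_le_one₀ zero_le ha) hab
    have e3 : v (9 * a) < 1 := by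
      have : 9 * a = (a ^ 3 + 1) * a - (a ^ 4 - 8 * a) := by ring
      rw [this]
      exact v.map_sub_lt (small _ _ e1 ha) e2
    rw [map_mul, h9, one_mul] at e3
    have e4 : v (1 : L) < 1 := by
      have : (1 : L) = (a ^ 3 + 1) - a * a ^ 2 := by ring
      rw [this]
      refine v.map_sub_lt (by simpa using e1) ?_
      exact small _ _ e3 (by rw [map_pow]; exact pow_le_one₀ zero_le ha)
    rw [map_one] at e4
    exact absurd e4 (lt_irrefl _)

/-- (b) in the mixed case -/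
theorem ideal_mixed (h2 : v 2 = 1) {a b : L} (ha : 1 < v a) (hb : v b ≤ 1) :
    max (v ((a - b) ^ 2)) (max (v (2 * (a * b * (a + b) + 2)))
      (v (a ^ 2 * b ^ 2 - 4 * (a + b)))) = v a ^ 2 := by
  have h4 : v 4 = 1 := by
    rw [show (4 : L) = 2 * 2 by norm_num, map_mul, h2, one_mul]
  have hba : v b < v a := lt_of_le_of_lt hb ha
  have k1 : v ((a - b) ^ 2) = v a ^ 2 := by
    rw [map_pow, Valuation.map_sub_eq_of_lt_left v hba]
  have hab : v (a + b) ≤ v a := add_le v le_rfl hba.le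
  have one_le : 1 ≤ v a ^ 2 := one_le_pow₀ ha.le
  have le2 : v a ≤ v a ^ 2 := by
    rw [pow_two]; exact le_mul_of_one_le_right' ha.le
  rw [k1]
  apply max_eq_left
  refine max_le ?_ ?_
  · rw [map_mul, h2, one_mul]
    refine add_le v ?_ (h2.le.trans one_le)
    rw [map_mul, map_mul]
    calc v a * v b * v (a + b) ≤ v a * 1 * v a := by gcongr
      _ = v a ^ 2 := by rw [mul_one, pow_two]
  · refine sub_le v ?_ ?_
    · rw [map_mul, map_pow, map_pow]
      calc v a ^ 2 * v b ^ 2 ≤ v a ^ 2 * 1 := by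
            gcongr
            exact pow_le_one₀ zero_le hb
        _ = v a ^ 2 := mul_one _
    · rw [map_mul, h4, one_mul]
      exact hab.trans le2

/-- (b) when both are not integral and ordered -/
theorem ideal_big (h2 : v 2 = 1) {a b : L} (ha : 1 < v a) (hb : 1 < v b) (hab : v b ≤ v a) :
    max (v ((a - b) ^ 2)) (max (v (2 * (a * b * (a + b) + 2)))
      (v (a ^ 2 * b ^ 2 - 4 * (a + b)))) = v a ^ 2 * v b ^ 2 := by
  have h4 : v 4 = 1 := by
    rw [show (4 : L) = 2 * 2 by norm_num, map_mul, h2, one_mul]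
  have hs : v (a + b) ≤ v a := add_le v le_rfl hab
  have hd : v (a - b) ≤ v a := sub_le v le_rfl hab
  have hb2 : 1 ≤ v b ^ 2 := one_le_pow₀ hb.le
  have hapos : 0 < v a := lt_trans zero_lt_one ha
  have hlt : v a < v a ^ 2 * v b ^ 2 := by
    calc v a = v a * 1 := (mul_one _).symm
      _ < v a * v a := by
          exact mul_lt_mul_of_pos_left ha hapos
      _ = v a ^ 2 * 1 := by rw [mul_one, pow_two]
      _ ≤ v a ^ 2 * v b ^ 2 := by gcongr
  have k0 : v (a ^ 2 * b ^ 2 - 4 * (a + b)) = v a ^ 2 * v b ^ 2 := by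
    rw [Valuation.map_sub_eq_of_lt_left, map_mul, map_pow, map_pow]
    rw [map_mul, h4, one_mul, map_mul, map_pow, map_pow]
    exact lt_of_le_of_lt hs hlt
  rw [k0, max_eq_right, max_eq_right]
  · rw [map_mul, h2, one_mul]
    refine add_le v ?_ (h2.le.trans (one_le_mul (one_le_pow₀ ha.le) hb2))
    rw [map_mul, map_mul]
    calc v a * v b * v (a + b) ≤ v a * v b * v a := by gcongr
      _ = v a ^ 2 * v b := by rw [pow_two]; ac_rfl
      _ ≤ v a ^ 2 * v b ^ 2 := by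
        gcongr
        rw [pow_two]; exact le_mul_of_one_le_right' hb.le
  · refine le_max_of_le_right ?_
    rw [map_pow]
    calc v (a - b) ^ 2 ≤ v a ^ 2 := by gcongr
      _ = v a ^ 2 * 1 := (mul_one _).symm
      _ ≤ v a ^ 2 * v b ^ 2 := by gcongr

/-- (b) -/
theorem ideal_eq (h2 : v 2 = 1) (h3 : v 3 = 1) (a b : L) :
    max (v ((a - b) ^ 2)) (max (v (2 * (a * b * (a + b) + 2)))
      (v (a ^ 2 * b ^ 2 - 4 * (a + b)))) = (max 1 (v a)) ^ 2 * (max 1 (v b)) ^ 2 := by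
  have symm : ∀ a b : L, max (v ((a - b) ^ 2)) (max (v (2 * (a * b * (a + b) + 2)))
      (v (a ^ 2 * b ^ 2 - 4 * (a + b)))) = max (v ((b - a) ^ 2))
      (max (v (2 * (b * a * (b + a) + 2))) (v (b ^ 2 * a ^ 2 - 4 * (b + a)))) := by
    intro a b
    congr 2
    · ring
    · congr 1; ring
    · congr 1; ring
  rcases le_or_gt (v a) 1 with ha | ha
  · rcases le_or_gt (v b) 1 with hb | hb
    · rw [max_eq_left ha, max_eq_left hb, ideal_int v h2 h3 ha hb]; simp
    · rw [symm, max_eq_left ha, max_eq_right hb.le, ideal_mixed v h2 hb ha]; simp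
  · rcases le_or_gt (v b) 1 with hb | hb
    · rw [max_eq_left hb, max_eq_right ha.le, ideal_mixed v h2 ha hb]; simp
    · rw [max_eq_right ha.le, max_eq_right hb.le]
      rcases le_total (v b) (v a) with hab | hab
      · exact ideal_big v h2 ha hb hab
      · rw [symm, ideal_big v h2 hb ha hab, mul_comm]

/-- The parallelogram law, in terms of a valuation. -/
theorem par_val (h2 : v 2 = 1) (h3 : v 3 = 1)
    {x1 y1 x2 y2 xp yp xm ym : L}
    (h1 : y1 ^ 2 = x1 ^ 3 + 1) (h2' : y2 ^ 2 = x2 ^ 3 + 1) (hne : x1 ≠ x2)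
    (hxp : xp = ((y1 - y2) / (x1 - x2)) ^ 2 - x1 - x2) (hp : yp ^ 2 = xp ^ 3 + 1)
    (hxm : xm = ((y1 + y2) / (x1 - x2)) ^ 2 - x1 - x2) (hm : ym ^ 2 = xm ^ 3 + 1) :
    max 1 (v yp) * max 1 (v ym) * v (x1 - x2) ^ 3 = (max 1 (v y1)) ^ 2 * (max 1 (v y2)) ^ 2 := by
  have hd : x1 - x2 ≠ 0 := sub_ne_zero.2 hne
  have hsum : xp + xm = 2 * (x1 * x2 * (x1 + x2) + 2) / (x1 - x2) ^ 2 := by
    rw [hxp, hxm]
    field_simp
    linear_combination 2 * h1 + 2 * h2'
  have hprod : xp * xm = (x1 ^ 2 * x2 ^ 2 - 4 * (x1 + x2)) / (x1 - x2) ^ 2 := by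
    rw [hxp, hxm, eq_div_iff (pow_ne_zero 2 hd)]
    have e : (((y1 - y2) / (x1 - x2)) ^ 2 - x1 - x2) * (((y1 + y2) / (x1 - x2)) ^ 2 - x1 - x2) *
        (x1 - x2) ^ 2 = (((y1 - y2) ^ 2 - (x1 + x2) * (x1 - x2) ^ 2) *
        ((y1 + y2) ^ 2 - (x1 + x2) * (x1 - x2) ^ 2)) / (x1 - x2) ^ 2 := by
      field_simp
      ring
    rw [e, div_eq_iff (pow_ne_zero 2 hd)]
    linear_combination (y1 ^ 2 - y2 ^ 2 + x1 ^ 3 - x2 ^ 3 - 2 * (x1 + x2) * (x1 - x2) ^ 2) * h1 +
      (-(y1 ^ 2 - y2 ^ 2 + x1 ^ 3 - x2 ^ 3) - 2 * (x1 + x2) * (x1 - x2) ^ 2) * h2'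
  have hF2 : v (x1 - x2) ^ 2 ≠ 0 := pow_ne_zero _ (by simpa using hd)
  have hS : v (x1 - x2) ^ 2 * (max 1 (v xp) * max 1 (v xm)) =
      (max 1 (v x1)) ^ 2 * (max 1 (v x2)) ^ 2 := by
    rw [← ideal_eq v h2 h3 x1 x2, ← gauss v xp xm, hsum, hprod]
    rw [map_div₀, map_div₀, map_pow, mul_max, mul_max, mul_one, mul_div_cancel₀ _ hF2,
      mul_div_cancel₀ _ hF2]
  have e1 := sq_eq_cube v h1
  have e2 := sq_eq_cube v h2'
  have ep := sq_eq_cube v hp
  have em := sq_eq_cube v hm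
  refine (pow_left_inj₀ zero_le zero_le two_ne_zero).1 ?_
  calc (max 1 (v yp) * max 1 (v ym) * v (x1 - x2) ^ 3) ^ 2
      = (max 1 (v yp)) ^ 2 * (max 1 (v ym)) ^ 2 * (v (x1 - x2) ^ 2) ^ 3 := by
        rw [mul_pow, mul_pow, ← pow_mul, ← pow_mul]
    _ = (v (x1 - x2) ^ 2 * (max 1 (v xp) * max 1 (v xm))) ^ 3 := by
        rw [ep, em, mul_pow, mul_pow, mul_comm]
    _ = ((max 1 (v y1)) ^ 2 * (max 1 (v y2)) ^ 2) ^ 2 := by
        rw [hS, e1, e2, mul_pow, mul_pow, ← pow_mul, ← pow_mul, ← pow_mul, ← pow_mul]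

end val

theorem Gen.val {L : Type} [Field L] {V : ValuationSubring L} {t y : L} (g : Gen V t y) :
    V.valuation t = max 1 (V.valuation y) := by
  obtain ⟨h0, h, h1, h2⟩ := g
  rw [← V.valuation_le_one_iff, map_inv₀] at h1
  rw [← V.valuation_le_one_iff, map_mul, map_inv₀] at h2
  have ht : 0 < V.valuation t := by
    rw [zero_lt_iff]; simpa using h0
  have k1 : 1 ≤ V.valuation t := by
    rwa [inv_le_one₀ ht] at h1
  have k2 : V.valuation y ≤ V.valuation t := by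
    rwa [← div_eq_mul_inv, div_le_one₀ ht] at h2
  apply le_antisymm
  · rcases h with h | h
    · rw [h]; simp
    · rw [h]; exact le_max_right _ _
  · exact max_le k1 k2

/-- The parallelogram law for the denominators of `P + Q` and `P - Q` on `y^2 = x^3 + 1`. -/
theorem parallelogram {L : Type} [Field L] (V : ValuationSubring L)
    (hV2 : (2 : L)⁻¹ ∈ V) (hV3 : (3 : L)⁻¹ ∈ V) (h2 : (2 : L) ≠ 0) (h3 : (3 : L) ≠ 0)
    {x1 y1 x2 y2 xp yp xm ym t1 t2 tp tm : L}
    (h1 : y1 ^ 2 = x1 ^ 3 + 1) (h2' : y2 ^ 2 = x2 ^ 3 + 1) (hne : x1 ≠ x2)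
    (hxp : xp = ((y1 - y2) / (x1 - x2)) ^ 2 - x1 - x2) (hp : yp ^ 2 = xp ^ 3 + 1)
    (hxm : xm = ((y1 + y2) / (x1 - x2)) ^ 2 - x1 - x2) (hm : ym ^ 2 = xm ^ 3 + 1)
    (g1 : Gen V t1 y1) (g2 : Gen V t2 y2) (gp : Gen V tp yp) (gm : Gen V tm ym) :
    tp * tm * (x1 - x2) ^ 3 * (t1 ^ 2 * t2 ^ 2)⁻¹ ∈ V ∧
      (tp * tm * (x1 - x2) ^ 3 * (t1 ^ 2 * t2 ^ 2)⁻¹)⁻¹ ∈ V := by
  have unit : ∀ n : L, n ∈ V → n⁻¹ ∈ V → n ≠ 0 → V.valuation n = 1 := by
    intro n hn hn' h0
    rw [← V.valuation_le_one_iff] at hn hn'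
    rw [map_inv₀] at hn'
    have hpos : 0 < V.valuation n := by
      rw [zero_lt_iff]; simpa using h0
    rw [inv_le_one₀ hpos] at hn'
    exact le_antisymm hn hn'
  have v2 : V.valuation 2 = 1 := unit 2 (ofNat_mem V 2) hV2 h2
  have v3 : V.valuation 3 = 1 := unit 3 (ofNat_mem V 3) hV3 h3
  have key := par_val V.valuation v2 v3 h1 h2' hne hxp hp hxm hm
  rw [← g1.val, ← g2.val, ← gp.val, ← gm.val] at key
  have hv : V.valuation (tp * tm * (x1 - x2) ^ 3 * (t1 ^ 2 * t2 ^ 2)⁻¹) = 1 := by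
    rw [map_mul, map_mul, map_mul, map_pow, map_inv₀, map_mul, map_pow, map_pow, key]
    apply mul_inv_cancel₀
    have a1 : V.valuation t1 ≠ 0 := by simpa using g1.1
    have a2 : V.valuation t2 ≠ 0 := by simpa using g2.1
    exact mul_ne_zero (pow_ne_zero 2 a1) (pow_ne_zero 2 a2)
  constructor
  · rw [← V.valuation_le_one_iff, hv]
  · rw [← V.valuation_le_one_iff, map_inv₀, hv, inv_one]

end Pool.Agent.TH589.C8_PAR
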